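import Pool.Agent.H525.MV.Stm

/-!
# CNT. Counting in residue classes

Subtask of helper525 (MP_484c84_nt), done by helper106.
-/

set_option autoImplicit false

namespace Pool.Agent.H106.MV

open Finset
open Pool.Agent.H525.NF (Box)

open scoped Classical

theorem one_dim (m r : ℤ) (T Q : ℕ) (hQ : 0 < Q) :
    |((((Finset.Ico m (m + T)).filter (fun x => (Q : ℤ) ∣ x - r)).card : ℕ) : ℝ) -
      (T : ℝ) / Q| ≤ 1 := by
  have h := Int.Ico_filter_modEq_card m (m + T) (r := (Q : ℤ)) (by exact_mod_cast hQ) r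
  have e : (Finset.Ico m (m + T)).filter (fun x => (Q : ℤ) ∣ x - r) =
      (Finset.Ico m (m + T)).filter (fun x => x ≡ r [ZMOD Q]) := by
    ext x
    rw [mem_filter, mem_filter, Int.modEq_comm, Int.modEq_iff_dvd]
  rw [e]
  have hQ' : (0 : ℚ) < Q := by exact_mod_cast hQ
  set N := ((Finset.Ico m (m + T)).filter (fun x => x ≡ r [ZMOD Q])).card with hN
  have hA : ((((m + T : ℤ) : ℚ) - r) / ((Q : ℤ) : ℚ)) = (((m : ℚ) - r) / ((Q : ℤ) : ℚ)) + T / Q := by
    push_cast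
    field_simp
    ring
  have hT : (0 : ℚ) ≤ (T : ℚ) / Q := by positivity
  have h1 := Int.le_ceil ((((m + T : ℤ) : ℚ) - r) / ((Q : ℤ) : ℚ))
  have h2 := Int.ceil_lt_add_one ((((m + T : ℤ) : ℚ) - r) / ((Q : ℤ) : ℚ))
  have h3 := Int.le_ceil (((m : ℚ) - r) / ((Q : ℤ) : ℚ))
  have h4 := Int.ceil_lt_add_one (((m : ℚ) - r) / ((Q : ℤ) : ℚ))
  have hN2 : ((N : ℤ) : ℚ) = max (((⌈(((m + T : ℤ) : ℚ) - r) / ((Q : ℤ) : ℚ)⌉ -
      ⌈((m : ℚ) - r) / ((Q : ℤ) : ℚ)⌉ : ℤ)) : ℚ) 0 := by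
    rw [h]; push_cast; rfl
  have key : |(N : ℚ) - (T : ℚ) / Q| ≤ 1 := by
    have hN3 : (N : ℚ) = ((N : ℤ) : ℚ) := by push_cast; rfl
    rw [hN3, hN2, abs_le]
    rw [hA] at h1 h2 ⊢
    constructor
    · have := le_max_left (((⌈((m : ℚ) - r) / ((Q : ℤ) : ℚ) + T / Q⌉ -
        ⌈((m : ℚ) - r) / ((Q : ℤ) : ℚ)⌉ : ℤ)) : ℚ) 0
      push_cast at this h1 h4 ⊢
      linarith
    · rw [sub_le_iff_le_add]
      refine max_le ?_ (by linarith)
      push_cast at h2 h3 ⊢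
      linarith
  have := (Rat.cast_le (K := ℝ)).mpr key
  push_cast at this
  exact this

theorem crt (W : ℕ) (a₀ : ℤ) (P : Finset ℕ) (hP : ∀ p ∈ P, p.Prime ∧ ¬ p ∣ W)
    (c : ∀ p : ℕ, ZMod p) :
    ∃ x : ℤ, (W : ℤ) ∣ x - a₀ ∧ ∀ p ∈ P, ((x : ℤ) : ZMod p) = c p := by
  induction P using Finset.induction_on with
  | empty => exact ⟨a₀, by simp, by simp⟩
  | insert p P hp ih =>
    obtain ⟨x, hx1, hx2⟩ := ih (fun q hq => hP q (mem_insert_of_mem hq))
    have hpp := (hP p (mem_insert_self _ _)).1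
    have hpW := (hP p (mem_insert_self _ _)).2
    have : Fact p.Prime := ⟨hpp⟩
    have hne : ((W * ∏ q ∈ P, q : ℕ) : ZMod p) ≠ 0 := by
      rw [Ne, ZMod.natCast_eq_zero_iff, hpp.dvd_mul, not_or]
      refine ⟨hpW, ?_⟩
      rw [Prime.dvd_finsetProd_iff hpp.prime]
      rintro ⟨q, hq, h⟩
      have := (Nat.prime_dvd_prime_iff_eq hpp (hP q (mem_insert_of_mem hq)).1).mp h
      subst this
      exact hp hq
    obtain ⟨k, hk⟩ := ZMod.intCast_surjective ((c p - ((x : ℤ) : ZMod p)) / ((W * ∏ q ∈ P, q : ℕ) : ZMod p))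
    refine ⟨x + ((W * ∏ q ∈ P, q : ℕ) : ℤ) * k, ?_, ?_⟩
    · have e : x + ((W * ∏ q ∈ P, q : ℕ) : ℤ) * k - a₀ =
          (x - a₀) + (W : ℤ) * (((∏ q ∈ P, q : ℕ) : ℤ) * k) := by push_cast; ring
      rw [e]
      exact dvd_add hx1 (Dvd.intro _ rfl)
    · intro q hq
      rcases mem_insert.mp hq with rfl | hq
      · rw [Int.cast_add, Int.cast_mul, hk, Int.cast_natCast, mul_div_cancel₀ _ hne]
        ring
      · have hz : ((((W * ∏ q ∈ P, q : ℕ) : ℤ)) : ZMod q) = 0 := by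
          rw [Int.cast_natCast, ZMod.natCast_eq_zero_iff]
          exact (Finset.dvd_prod_of_mem _ hq).mul_left W
        rw [Int.cast_add, Int.cast_mul, hz, zero_mul, add_zero, hx2 q hq]

theorem dvd_all {W : ℕ} {P : Finset ℕ} (hP : ∀ p ∈ P, p.Prime ∧ ¬ p ∣ W) {d : ℤ}
    (h1 : (W : ℤ) ∣ d) (h2 : ∀ p ∈ P, (p : ℤ) ∣ d) : ((W * ∏ p ∈ P, p : ℕ) : ℤ) ∣ d := by
  have h3 : (∏ p ∈ P, (p : ℤ)) ∣ d := by
    refine Finset.prod_dvd_of_coprime ?_ h2
    intro p hp q hq hpq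
    exact Nat.isCoprime_iff_coprime.mpr ((Nat.coprime_primes (hP p hp).1 (hP q hq).1).mpr hpq)
  have h4 : IsCoprime (W : ℤ) (∏ p ∈ P, (p : ℤ)) := by
    refine IsCoprime.prod_right fun p hp => ?_
    exact Nat.isCoprime_iff_coprime.mpr (((hP p hp).1.coprime_iff_not_dvd.mpr (hP p hp).2).symm)
  have := h4.mul_dvd h1 h3
  push_cast
  exact this

theorem prod_diff {ι : Type} (s : Finset ι) (N : ι → ℝ) (t : ℝ) (ht : 0 ≤ t)
    (hN : ∀ i ∈ s, 0 ≤ N i ∧ |N i - t| ≤ 1) :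
    |∏ i ∈ s, N i - t ^ s.card| ≤ s.card * (t + 1) ^ (s.card - 1) := by
  induction s using Finset.induction_on with
  | empty => simp
  | insert j s hj ih =>
    have ih' := ih (fun i hi => hN i (mem_insert_of_mem hi))
    obtain ⟨hj0, hj1⟩ := hN j (mem_insert_self _ _)
    rw [prod_insert hj, card_insert_of_notMem hj, Nat.add_sub_cancel]
    have e : N j * ∏ i ∈ s, N i - t ^ (s.card + 1) =
        N j * (∏ i ∈ s, N i - t ^ s.card) + (N j - t) * t ^ s.card := by ring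
    have hjle : N j ≤ t + 1 := by have := (abs_le.mp hj1).2; linarith
    have ht1 : t ^ s.card ≤ (t + 1) ^ s.card := pow_le_pow_left₀ ht (by linarith) _
    have h1 : |N j * (∏ i ∈ s, N i - t ^ s.card)| ≤ s.card * (t + 1) ^ s.card := by
      rw [abs_mul, abs_of_nonneg hj0]
      have h2 : N j * |∏ i ∈ s, N i - t ^ s.card| ≤
          (t + 1) * (s.card * (t + 1) ^ (s.card - 1)) :=
        mul_le_mul hjle ih' (abs_nonneg _) (by linarith)
      refine h2.trans (le_of_eq ?_)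
      rcases Nat.eq_zero_or_pos s.card with h0 | h0
      · rw [h0]; simp
      · obtain ⟨m, hm⟩ : ∃ m, s.card = m + 1 := ⟨s.card - 1, by omega⟩
        rw [hm, Nat.add_sub_cancel]; ring
    have h2 : |(N j - t) * t ^ s.card| ≤ (t + 1) ^ s.card := by
      rw [abs_mul, abs_of_nonneg (pow_nonneg ht _)]
      calc |N j - t| * t ^ s.card ≤ 1 * t ^ s.card :=
            mul_le_mul_of_nonneg_right hj1 (pow_nonneg ht _)
        _ ≤ (t + 1) ^ s.card := by rw [one_mul]; exact ht1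
    rw [e]
    refine (abs_add_le _ _).trans ?_
    push_cast
    linarith

theorem alg (T W b q : ℝ) (n : ℕ) : (T / W) ^ n * (b / q ^ n) = b * (T / (W * q)) ^ n := by
  rw [div_pow, div_pow, mul_pow, div_mul_div_comm, mul_comm (T ^ n) b, mul_div_assoc]

theorem t_CNT : Pool.Agent.H525.MV.S_CNT := by
  intro ι _ W a₀ P B hW hP M T
  set Q : ℕ := W * ∏ p ∈ P, p with hQdef
  have hQ : 0 < Q := Nat.mul_pos hW (Finset.prod_pos fun p hp => (hP p hp).1.pos)
  let c : ((p : ℕ) → p ∈ P → (ι → ZMod p)) → ι → ∀ p : ℕ, ZMod p :=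
    fun β i p => if h : p ∈ P then β p h i else 0
  have hex : ∀ (β : (p : ℕ) → p ∈ P → (ι → ZMod p)) (i : ι), ∃ x : ℤ, (W : ℤ) ∣ x - a₀ i ∧
      ∀ p ∈ P, ((x : ℤ) : ZMod p) = c β i p := fun β i => crt W (a₀ i) P hP (c β i)
  choose r hr1 hr2 using hex
  have hr3 : ∀ β i p (hp : p ∈ P), ((r β i : ℤ) : ZMod p) = β p hp i := by
    intro β i p hp
    rw [hr2 β i p hp]
    simp only [c, dif_pos hp]
  let cell : ((p : ℕ) → p ∈ P → (ι → ZMod p)) → Finset (ι → ℤ) := fun β =>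
    Fintype.piFinset (fun i => (Finset.Ico (M i) (M i + T)).filter
      (fun x => (Q : ℤ) ∣ x - r β i))
  have hcell : ∀ β a, a ∈ cell β ↔ ∀ i, (M i ≤ a i ∧ a i < M i + T) ∧ (Q : ℤ) ∣ a i - r β i := by
    intro β a
    simp only [cell, Fintype.mem_piFinset, mem_filter, mem_Ico]
  have hWQ : (W : ℤ) ∣ (Q : ℤ) := by rw [hQdef]; exact_mod_cast Dvd.intro _ rfl
  have hpQ : ∀ p ∈ P, (p : ℤ) ∣ (Q : ℤ) := by
    intro p hp
    have : p ∣ Q := (Finset.dvd_prod_of_mem (fun p => p) hp).mul_left W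
    exact_mod_cast this
  have hval : ∀ β a, a ∈ cell β → ∀ p (hp : p ∈ P) i, ((a i : ℤ) : ZMod p) = β p hp i := by
    intro β a ha p hp i
    have h1 := ((hcell β a).mp ha i).2
    have h2 : (p : ℤ) ∣ a i - r β i := (hpQ p hp).trans h1
    rw [← hr3 β i p hp]
    have h3 := (ZMod.intCast_zmod_eq_zero_iff_dvd (a i - r β i) p).mpr h2
    rw [Int.cast_sub, sub_eq_zero] at h3
    exact h3
  have hset : (Box M T).filter (fun a => (∀ i, (W : ℤ) ∣ a i - a₀ i) ∧
        ∀ p ∈ P, (fun i => ((a i : ℤ) : ZMod p)) ∈ B p) = (P.pi B).biUnion cell := by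
    ext a
    rw [mem_filter, mem_biUnion, Pool.Agent.H525.NF.mem_Box]
    constructor
    · rintro ⟨h1, h2, h3⟩
      refine ⟨fun p _ i => ((a i : ℤ) : ZMod p), ?_, ?_⟩
      · rw [mem_pi]; exact h3
      · rw [hcell]
        intro i
        refine ⟨h1 i, dvd_all hP ?_ ?_⟩
        · have := dvd_sub (h2 i) (hr1 (fun p _ i => ((a i : ℤ) : ZMod p)) i)
          rwa [sub_sub_sub_cancel_right] at this
        · intro p hp
          rw [← ZMod.intCast_zmod_eq_zero_iff_dvd, Int.cast_sub, hr3 _ i p hp, sub_self]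
    · rintro ⟨β, hβ, ha⟩
      rw [mem_pi] at hβ
      have ha' := (hcell β a).mp ha
      refine ⟨fun i => (ha' i).1, fun i => ?_, fun p hp => ?_⟩
      · have h1 : (W : ℤ) ∣ a i - r β i := hWQ.trans (ha' i).2
        have := dvd_add h1 (hr1 β i)
        rwa [sub_add_sub_cancel] at this
      · have : (fun i => ((a i : ℤ) : ZMod p)) = β p hp := by
          funext i; exact hval β a ha p hp i
        rw [this]; exact hβ p hp
  have hcard : (((Box M T).filter (fun a => (∀ i, (W : ℤ) ∣ a i - a₀ i) ∧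
        ∀ p ∈ P, (fun i => ((a i : ℤ) : ZMod p)) ∈ B p)).card : ℝ) =
      ∑ β ∈ P.pi B, ∏ i, (((Finset.Ico (M i) (M i + T)).filter
        (fun x => (Q : ℤ) ∣ x - r β i)).card : ℝ) := by
    rw [hset, card_biUnion]
    · push_cast
      refine Finset.sum_congr rfl fun β _ => ?_
      simp only [cell]
      rw [Fintype.card_piFinset]
      push_cast
      rfl
    · intro β _ β' _ hne
      change Disjoint (cell β) (cell β')
      rw [Finset.disjoint_left]
      intro a ha ha'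
      apply hne
      funext p hp i
      rw [← hval β a ha p hp i, ← hval β' a ha' p hp i]
  rw [hcard]
  set t : ℝ := (T : ℝ) / Q with ht
  have ht0 : 0 ≤ t := by positivity
  have hQr : (Q : ℝ) = W * ∏ p ∈ P, (p : ℝ) := by rw [hQdef]; push_cast; rfl
  have hWr : (W : ℝ) ≠ 0 := by have : 0 < W := hW; positivity
  have hPr : (∏ p ∈ P, (p : ℝ)) ≠ 0 :=
    Finset.prod_ne_zero_iff.mpr fun p hp => by exact_mod_cast (hP p hp).1.ne_zero
  have hmain : ((T : ℝ) / W) ^ Fintype.card ι *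
      ∏ p ∈ P, ((B p).card : ℝ) / (p : ℝ) ^ Fintype.card ι =
      ∑ _β ∈ P.pi B, t ^ Fintype.card ι := by
    rw [sum_const, card_pi, nsmul_eq_mul, Finset.prod_div_distrib, Finset.prod_pow, ht, hQr]
    push_cast
    exact alg _ _ _ _ _
  rw [hmain, ← Finset.sum_sub_distrib]
  refine (Finset.abs_sum_le_sum_abs _ _).trans ?_
  have hterm : ∀ β ∈ P.pi B, |∏ i, (((Finset.Ico (M i) (M i + T)).filter
        (fun x => (Q : ℤ) ∣ x - r β i)).card : ℝ) - t ^ Fintype.card ι| ≤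
      Fintype.card ι * (t + 1) ^ (Fintype.card ι - 1) := by
    intro β _
    exact prod_diff Finset.univ _ t ht0 (fun i _ => ⟨Nat.cast_nonneg _, one_dim _ _ _ _ hQ⟩)
  refine (Finset.sum_le_sum hterm).trans (le_of_eq ?_)
  rw [sum_const, card_pi, nsmul_eq_mul, ht, hQr]
  push_cast
  ring

end Pool.Agent.H106.MV
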